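import Pool.Agent.TH797.DG

/-!
# A gap theorem for the traces of projective modules over group rings

Over a field of characteristic zero, integrality (away from a set of primes) of the traces of
idempotent matrices over group rings follows from a bound on the denominators which is
subpolynomial in the size of the matrix.
-/

set_option autoImplicit false

namespace Pool.Agent.Results.MP_6374fb_al.DenominatorGap

open MonoidAlgebra Pool.Agent.TH797.DG

universe u v

/-- the traces of the idempotent `n × n` matrices over `kG`, `n ∈ W`, are fractions whose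
denominators have all their prime factors in `P` -/
def Integral (k : Type u) [Field k] (P W : Set ℕ) (G : Type v) [Group G] : Prop :=
  ∀ n ∈ W, ∀ e : Matrix (Fin n) (Fin n) (MonoidAlgebra k G), e * e = e →
    ∃ (d : ℕ) (z : ℤ), PNumber P d ∧ (d : k) * tr e = z

/-- for every `ε > 0` there is `C` such that the traces of the idempotent `n × n` matrices over
`kG`, `n ∈ W`, are fractions with denominators `N d`, `N ≤ C n ^ ε`, all prime factors of `d`
in `P` -/
def SlowDenominators (k : Type u) [Field k] (P W : Set ℕ) (G : Type v) [Group G] : Prop :=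
  ∀ ε : ℝ, 0 < ε → ∃ C : ℝ, ∀ n ∈ W, ∀ e : Matrix (Fin n) (Fin n) (MonoidAlgebra k G),
    e * e = e → ∃ (N d : ℕ) (z : ℤ), 0 < N ∧ (N : ℝ) ≤ C * (n : ℝ) ^ ε ∧ PNumber P d ∧
      ((N : k) * d) * tr e = z

lemma exists_eps (n : ℕ) (hn : 0 < n) :
    ∃ ε : ℝ, 0 < ε ∧ ∀ m : ℕ, (((n ^ m : ℕ) : ℝ)) ^ ε ≤ (3 / 2) ^ m := by
  have hn1 : (1 : ℝ) ≤ n := by exact_mod_cast hn
  have hn0 : (0 : ℝ) < n := by linarith
  have hl : 0 ≤ Real.log n := Real.log_nonneg hn1
  have hl2 : 0 < Real.log (3 / 2) := Real.log_pos (by norm_num)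
  refine ⟨Real.log (3 / 2) / (Real.log n + 1), by positivity, fun m => ?_⟩
  set ε := Real.log (3 / 2) / (Real.log n + 1) with hε
  have h1 : (n : ℝ) ^ ε ≤ 3 / 2 := by
    rw [Real.rpow_def_of_pos hn0]
    have : Real.log n * ε ≤ Real.log (3 / 2) := by
      rw [hε, mul_div_assoc', div_le_iff₀ (by linarith)]
      nlinarith
    calc Real.exp (Real.log n * ε) ≤ Real.exp (Real.log (3 / 2)) := Real.exp_le_exp.2 this
      _ = 3 / 2 := Real.exp_log (by norm_num)
  have h2 : (((n ^ m : ℕ) : ℝ)) ^ ε = ((n : ℝ) ^ ε) ^ m := by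
    push_cast
    rw [← Real.rpow_natCast, ← Real.rpow_mul hn0.le, ← Real.rpow_natCast, ← Real.rpow_mul hn0.le,
      mul_comm]
  rw [h2]
  exact pow_le_pow_left₀ (by positivity) h1 m

theorem integral_of {k : Type u} [Field k] [CharZero k] (P W : Set ℕ)
    (hW : ∀ n ∈ W, 0 < n ∧ ∀ m : ℕ, n ^ m ∈ W) {G : Type v} [Group G]
    (h : SlowDenominators k P W (ℕ → G)) : Integral k P W G := by
  intro n hnW e he
  obtain ⟨hn, hpow⟩ := hW n hnW
  obtain ⟨ε, hε, hb⟩ := exists_eps n hn
  obtain ⟨C, hC⟩ := h ε hε
  apply core P (tr e) |C|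
  intro m
  obtain ⟨s, hs', E, hE, htr⟩ := powers e he m
  obtain ⟨N, d, z, hN, hNC, hd, hz⟩ := hC s (by rw [hs']; exact hpow m) E hE
  refine ⟨N, d, z, hN, ?_, hd, ?_⟩
  · calc (N : ℝ) ≤ C * (s : ℝ) ^ ε := hNC
      _ ≤ |C| * (s : ℝ) ^ ε := by
          apply mul_le_mul_of_nonneg_right (le_abs_self C)
          positivity
      _ ≤ |C| * (3 / 2) ^ m := by
          apply mul_le_mul_of_nonneg_left _ (abs_nonneg C)
          rw [hs']
          exact hb m
  · rw [← htr]
    exact hz

/-- Let `k` be a field of characteristic zero, `P` a set of primes and `W` a set of positive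
integers which contains all powers of its elements (for instance all positive integers, or `{1}`).
Let `𝒞` be a class of groups which contains with `G` the group `G ^ ℕ` of all sequences in `G`
(for instance all groups, the torsion-free groups, or the groups without elements of order `ℓ` for
the primes `ℓ` outside `P`).
(1) For every group `G`: if the traces of the idempotent matrices over `k[G ^ ℕ]` of sizes `n ∈ W`
have denominators `N d`, all prime factors of `d` in `P`, with `N ≤ C n ^ ε` for every `ε > 0`,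
then the traces of the idempotent matrices over `kG` of sizes in `W` have denominators with all
prime factors in `P`.
(2) So for the groups of `𝒞` the integrality away from `P` of all these traces is equivalent to
the subpolynomial bound. -/
theorem result (k : Type u) [Field k] [CharZero k] (P W : Set ℕ)
    (hW : ∀ n ∈ W, 0 < n ∧ ∀ m : ℕ, n ^ m ∈ W) :
    (∀ (G : Type v) [Group G], SlowDenominators k P W (ℕ → G) → Integral k P W G) ∧
    (∀ 𝒞 : (∀ (G : Type v) [Group G], Prop), (∀ (G : Type v) [Group G], 𝒞 G → 𝒞 (ℕ → G)) →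
      ((∀ (G : Type v) [Group G], 𝒞 G → SlowDenominators k P W G) ↔
        (∀ (G : Type v) [Group G], 𝒞 G → Integral k P W G))) ∧
    (∀ (G : Type v) [Group G], NoTorsionOff P G → NoTorsionOff P (ℕ → G)) := by
  refine ⟨fun G _ h => integral_of P W hW h, ?_, fun G _ h => noTorsion_pi h⟩
  intro 𝒞 h𝒞
  refine ⟨fun h G _ hG => integral_of P W hW (h _ (h𝒞 G hG)), fun h G _ hG => ?_⟩
  intro ε hε
  refine ⟨1, fun n hnW e he => ?_⟩
  obtain ⟨d, z, hd, hz⟩ := h G hG n hnW e he
  refine ⟨1, d, z, one_pos, ?_, hd, by rw [Nat.cast_one, one_mul]; exact hz⟩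
  have : (1 : ℝ) ≤ (n : ℝ) ^ ε := Real.one_le_rpow (by exact_mod_cast (hW n hnW).1) hε.le
  simpa using this

end Pool.Agent.Results.MP_6374fb_al.DenominatorGap
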