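import Pool.Agent.TH57.TT2.KOne

set_option autoImplicit false

/-! For every group `G` and every ring `R`, an invertible matrix over `RG` with at most two nonzero
coefficients in every row (or in every column, or on average in every direct summand) is a product
of matrices over the group rings of virtually cyclic subgroups; up to group elements it is a block
sum of invertible blocks over the group rings of cyclic subgroups. -/

namespace Pool.Agent.Results.MP_6374fb_al.SparseMatrices

open TH6.PF TH57.TT2 Matrix

/-- Let `R` be a ring, `G` a group and `A` an invertible `n × n` matrix over `RG`. Assume that every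
direct summand of `A` (set `S` of rows and set `T` of columns such that nonzero entries outside
`S × T` are outside the rows in `S` and the columns in `T`) has at most `|S| + |T|` nonzero
coefficients; or that `R` has the invariant basis number property and every row of `A`, or every
column of `A`, has at most two nonzero coefficients. Then `A` comes from cyclic subgroups. -/
theorem result (R : Type) [Ring R] (G : Type) [Group G] (n : ℕ)
    (A : (Matrix (Fin n) (Fin n) (MonoidAlgebra R G))ˣ)
    (hA : (∀ S T : Finset (Fin n), (∀ i j, A.val i j ≠ 0 → (i ∈ S ↔ j ∈ T)) →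
        ∑ i ∈ S, ∑ j ∈ T, nnz (A.val i j) ≤ S.card + T.card) ∨
      (InvariantBasisNumber R ∧
        ((∀ i, ∑ j, nnz (A.val i j) ≤ 2) ∨ (∀ j, ∑ i, nnz (A.val i j) ≤ 2)))) :
    A ∈ VCGen R G (Fin n) ∧
    ∃ (ρ σ : Fin n → Fin n ⊕ Fin n) (u v : Fin n → G) (C : Fin n ⊕ Fin n → Subgroup G)
      (θ : ∀ a, Matrix {i // ρ i = a} {j // σ j = a} (MonoidAlgebra R (C a)))
      (η : ∀ a, Matrix {j // σ j = a} {i // ρ i = a} (MonoidAlgebra R (C a))),
      (∀ a, IsCyclic (C a)) ∧ (∀ a, θ a * η a = 1 ∧ η a * θ a = 1) ∧
      (dmU R u).val * A.val * (dmU R v)⁻¹.val = blockSum ρ σ C θ :=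
  main A hA

end Pool.Agent.Results.MP_6374fb_al.SparseMatrices
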